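import Pool.Agent.W774.TL.Stm

set_option autoImplicit false

namespace Pool.Agent.W682.TLM

open Set Filter Topology Pool.Agent.W774.TL

theorem S_add_one (u : ℝ) : S (u + 1) = S u := by
  unfold S
  rw [show 2 * Real.pi * (u + 1) = 2 * Real.pi * u + 2 * Real.pi by ring, Real.sin_add_two_pi]

theorem S_sub_int (u : ℝ) (j : ℤ) : S (u - j) = S u := by
  unfold S
  rw [show 2 * Real.pi * (u - j) = 2 * Real.pi * u - j * (2 * Real.pi) by ring,
    Real.sin_sub_int_mul_two_pi]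

theorem V_per (j : ℤ) (x t : ℝ) : V j (x + 1) t = V j x t ∧ V j x (t + 1) = V j x t := by
  unfold V
  constructor
  · rw [show x + 1 - j * t = (x - j * t) + 1 by ring, S_add_one]
  · rw [show x - j * (t + 1) = (x - j * t) - j by ring, S_sub_int]

theorem h_per (x p t : ℝ) : h (x + 1) p t = h x p t ∧ h x p (t + 1) = h x p t := by
  unfold h Z E
  constructor
  · congr 1
    exact tsum_congr (fun j => by rw [(V_per j x t).1])
  · congr 1
    exact tsum_congr (fun j => by rw [(V_per j x t).2])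

theorem h_smooth (h1 : P_SMOOTH) (h2 : P_DER) :
    ContDiff ℝ (⊤ : ℕ∞) (fun q : ℝ × ℝ × ℝ => h q.1 q.2.1 q.2.2) :=
  ContDiff.log h1 (fun q => (h2 q.1 q.2.1 q.2.2).1.ne')

theorem hp_deriv (h2 : P_DER) (x p t : ℝ) : HasDerivAt (fun s => h x s t) (hp x p t) p := by
  obtain ⟨hZ, hd, -, -⟩ := h2 x p t
  exact hd.log hZ.ne'

theorem hx_deriv (h2 : P_DER) (x p t : ℝ) : HasDerivAt (fun s => h s p t) (-fo x p t) x := by
  obtain ⟨hZ, -, hd, -⟩ := h2 x p t
  have h6 : -fo x p t =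
      (-∑' j : ℤ, (3 : ℝ) ^ j.natAbs * Co (x - j * t) * E j x p t) / Z x p t := by
    unfold fo; rw [neg_div]
  rw [h6]
  exact hd.log hZ.ne'

theorem hpp_pos (h2 : P_DER) (h3 : P_CVX) (x p t : ℝ) :
    0 < deriv (deriv (fun s => h x s t)) p := by
  have h4 : deriv (fun s => h x s t) = fun s => hp x s t :=
    funext (fun s => (hp_deriv h2 x s t).deriv)
  rw [h4]
  obtain ⟨hZ, hd, -, hd2⟩ := h2 x p t
  have h5 : HasDerivAt (fun s => hp x s t)
      (((∑' j : ℤ, (j : ℝ) ^ 2 * E j x p t) * Z x p t -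
        (∑' j : ℤ, (j : ℝ) * E j x p t) * (∑' j : ℤ, (j : ℝ) * E j x p t)) / (Z x p t) ^ 2) p :=
    hd2.div hd hZ.ne'
  rw [h5.deriv]
  apply div_pos _ (by positivity)
  have := h3 x p t
  have hZe : (∑' j : ℤ, E j x p t) = Z x p t := rfl
  rw [hZe] at this
  linarith [sq (∑' j : ℤ, (j : ℝ) * E j x p t)]

section lag

variable {n : ℕ} (l P : ℝ → ℝ → ℝ → ℝ)

/-- the Lagrangian on the torus -/
noncomputable def Lag (n : ℕ) (l : ℝ → ℝ → ℝ → ℝ) (x v : Fin n → ℝ) (t : ℝ) : ℝ :=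
  ∑ i, l (x i) (v i) t

theorem Lv_hd (hlv : ∀ x v t : ℝ, HasDerivAt (fun s => l x s t) (P x v t) v)
    (f : (Fin n → ℝ) → ℝ → ℝ) (i : Fin n) (x v : Fin n → ℝ) (t : ℝ) :
    Lv (fun x v t => Lag n l x v t + f x t) i x v t = P (x i) (v i) t := by
  unfold Lv Lag
  have h : HasDerivAt (fun s => ∑ j, l (x j) (Function.update v i s j) t)
      (∑ j, if j = i then P (x i) (v i) t else 0) (v i) := by
    apply HasDerivAt.fun_sum
    intro j _
    by_cases hj : j = i
    · subst hj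
      simp only [Function.update_self, if_true]
      exact hlv _ _ _
    · simp only [Function.update_of_ne hj, if_neg hj]
      exact hasDerivAt_const _ _
  rw [(h.add_const (f x t)).deriv]
  simp

theorem Lx_hd (hlx : ∀ x v t : ℝ, HasDerivAt (fun s => l s v t) (fo x (P x v t) t) x)
    (f : (Fin n → ℝ) → ℝ → ℝ) (hf : C2 f) (i : Fin n) (x v : Fin n → ℝ) (t : ℝ) :
    Lx (fun x v t => Lag n l x v t + f x t) i x v t =
      fo (x i) (P (x i) (v i) t) t + Df f i x t := by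
  unfold Lx Lag Df
  have h : HasDerivAt (fun s => ∑ j, l (Function.update x i s j) (v j) t)
      (∑ j, if j = i then fo (x i) (P (x i) (v i) t) t else 0) (x i) := by
    apply HasDerivAt.fun_sum
    intro j _
    by_cases hj : j = i
    · subst hj
      simp only [Function.update_self, if_true]
      exact hlx _ _ _
    · simp only [Function.update_of_ne hj, if_neg hj]
      exact hasDerivAt_const _ _
  have hd : DifferentiableAt ℝ (fun s => f (Function.update x i s) t) (x i) := by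
    have h1 : Differentiable ℝ (fun q : (Fin n → ℝ) × ℝ => f q.1 q.2) :=
      hf.differentiable (by norm_num)
    have h2 : DifferentiableAt ℝ (fun s : ℝ => ((Function.update x i s, t) : (Fin n → ℝ) × ℝ))
        (x i) :=
      (hasDerivAt_update x i (x i)).differentiableAt.prodMk (differentiableAt_const t)
    exact (h1 _).comp (x i) h2
  have h6 := h.fun_add hd.hasDerivAt
  exact h6.deriv.trans (by simp)

theorem el_iff (hlv : ∀ x v t : ℝ, HasDerivAt (fun s => l x s t) (P x v t) v)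
    (hlx : ∀ x v t : ℝ, HasDerivAt (fun s => l s v t) (fo x (P x v t) t) x)
    (f : (Fin n → ℝ) → ℝ → ℝ) (hf : C2 f) (γ : ℝ → (Fin n → ℝ)) :
    IsEL (fun x v t => Lag n l x v t + f x t) γ ↔
      (∀ t, DifferentiableAt ℝ γ t) ∧ ∀ (t : ℝ) (i : Fin n),
        HasDerivAt (fun s => P (γ s i) (deriv γ s i) s)
          (fo (γ t i) (P (γ t i) (deriv γ t i) t) t + Df f i (γ t) t) t := by
  unfold IsEL
  simp only [Lv_hd l P hlv f, Lx_hd l P hlx f hf]

theorem exist_el (hlv : ∀ x v t : ℝ, HasDerivAt (fun s => l x s t) (P x v t) v)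
    (hlx : ∀ x v t : ℝ, HasDerivAt (fun s => l s v t) (fo x (P x v t) t) x)
    (hHP : ∀ x v t : ℝ, hp x (P x v t) t = v) (hPH : ∀ x p t : ℝ, P x (hp x p t) t = p)
    (h8 : P_COMPL)
    (f : (Fin n → ℝ) → ℝ → ℝ) (hf : C2 f) (hfp : PerF f) (t0 : ℝ) (x0 v0 : Fin n → ℝ) :
    ∃ γ : ℝ → (Fin n → ℝ), IsEL (fun x v t => Lag n l x v t + f x t) γ ∧ γ t0 = x0 ∧
      deriv γ t0 = v0 := by
  obtain ⟨X, Q, hX, hQ, hXQ⟩ := h8 n f hf hfp t0 x0 (fun i => P (x0 i) (v0 i) t0)
  have hdX : ∀ t, deriv X t = fun i => hp (X t i) (Q t i) t := fun t => (hXQ t).1.deriv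
  refine ⟨X, ?_, hX, ?_⟩
  · rw [el_iff l P hlv hlx f hf]
    refine ⟨fun t => (hXQ t).1.differentiableAt, ?_⟩
    intro t i
    have h1 : (fun s => P (X s i) (deriv X s i) s) = fun s => Q s i := by
      funext s
      rw [hdX s]
      exact hPH _ _ _
    have h2 : P (X t i) (deriv X t i) t = Q t i := congrFun h1 t
    rw [h1, h2]
    exact (hasDerivAt_pi.mp (hXQ t).2) i
  · rw [hdX t0]
    funext i
    rw [hX, hQ]
    exact hHP _ _ _

theorem tonelli_lag (hl : ContDiff ℝ (⊤ : ℕ∞) (fun q : ℝ × ℝ × ℝ => l q.1 q.2.1 q.2.2))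
    (hP : ContDiff ℝ (⊤ : ℕ∞) (fun q : ℝ × ℝ × ℝ => P q.1 q.2.1 q.2.2))
    (hlv : ∀ x v t : ℝ, HasDerivAt (fun s => l x s t) (P x v t) v)
    (hlx : ∀ x v t : ℝ, HasDerivAt (fun s => l s v t) (fo x (P x v t) t) x)
    (hHP : ∀ x v t : ℝ, hp x (P x v t) t = v) (hPH : ∀ x p t : ℝ, P x (hp x p t) t = p)
    (hPv : ∀ x v t : ℝ, 0 < deriv (fun s => P x s t) v)
    (hls : ∀ K : ℝ, ∃ B : ℝ, ∀ x v t : ℝ, K * |v| - B ≤ l x v t)
    (hlp : ∀ x v t : ℝ, l (x + 1) v t = l x v t ∧ l x v (t + 1) = l x v t)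
    (h8 : P_COMPL) : Tonelli (Lag n l) := by
  refine ⟨?_, ?_, ?_, ?_, ?_⟩
  · unfold Lag
    apply ContDiff.sum
    intro i _
    have h1 : ContDiff ℝ (⊤ : ℕ∞) (fun q : (Fin n → ℝ) × (Fin n → ℝ) × ℝ =>
        ((q.1 i, q.2.1 i, q.2.2) : ℝ × ℝ × ℝ)) := by
      fun_prop
    exact hl.comp h1
  · intro x v t k m
    unfold Lag
    apply Finset.sum_congr rfl
    intro i _
    have h1 : Function.Periodic (fun y => l y (v i) (t + m)) 1 := fun y => (hlp y (v i) (t + m)).1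
    have h2 : Function.Periodic (fun s => l (x i) (v i) s) 1 := fun s => (hlp (x i) (v i) s).2
    have h3 := h1.int_mul (k i) (x i)
    have h4 := h2.int_mul m t
    simp only [mul_one] at h3 h4
    rw [h3, h4]
  · intro x v t w hw
    have h1 : deriv (fun s : ℝ => Lag n l x (v + s • w) t) =
        fun s => ∑ i, P (x i) ((v + s • w) i) t * w i := by
      funext s
      apply HasDerivAt.deriv
      unfold Lag
      apply HasDerivAt.fun_sum
      intro i _
      have h2 : HasDerivAt (fun s : ℝ => (v + s • w) i) (w i) s := by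
        simp only [Pi.add_apply, Pi.smul_apply, smul_eq_mul]
        have := ((hasDerivAt_id s).mul_const (w i)).const_add (v i)
        simpa using this
      exact (hlv (x i) ((v + s • w) i) t).comp s h2
    rw [h1]
    have h3 : HasDerivAt (fun s : ℝ => ∑ i, P (x i) ((v + s • w) i) t * w i)
        (∑ i, (deriv (fun s => P (x i) s t) (v i) * w i) * w i) 0 := by
      apply HasDerivAt.fun_sum
      intro i _
      apply HasDerivAt.mul_const
      have h2 : HasDerivAt (fun s : ℝ => (v + s • w) i) (w i) 0 := by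
        simp only [Pi.add_apply, Pi.smul_apply, smul_eq_mul]
        have := ((hasDerivAt_id (0 : ℝ)).mul_const (w i)).const_add (v i)
        simpa using this
      have h4 : (v + (0 : ℝ) • w) i = v i := by simp
      have h5 : DifferentiableAt ℝ (fun s => P (x i) s t) (v i) := by
        have h6 : Differentiable ℝ (fun q : ℝ × ℝ × ℝ => P q.1 q.2.1 q.2.2) :=
          hP.differentiable (by norm_num)
        have h7 : DifferentiableAt ℝ (fun s : ℝ => ((x i, s, t) : ℝ × ℝ × ℝ)) (v i) := by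
          fun_prop
        exact (h6 _).comp (v i) h7
      have h8 : HasDerivAt (fun s => P (x i) s t) (deriv (fun s => P (x i) s t) (v i))
          ((v + (0 : ℝ) • w) i) := by
        rw [h4]; exact h5.hasDerivAt
      exact h8.comp (0 : ℝ) h2
    rw [h3.deriv]
    obtain ⟨i, hi⟩ : ∃ i, w i ≠ 0 := by
      by_contra hc
      push Not at hc
      exact hw (funext hc)
    apply Finset.sum_pos'
    · intro j _
      rw [mul_assoc]
      exact mul_nonneg (hPv _ _ _).le (mul_self_nonneg _)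
    · refine ⟨i, Finset.mem_univ _, ?_⟩
      rw [mul_assoc]
      exact mul_pos (hPv _ _ _) (mul_self_pos.mpr hi)
  · intro K
    obtain ⟨B, hB⟩ := hls |K|
    refine ⟨n * B, ?_⟩
    intro x v t
    have h1 : ‖v‖ ≤ ∑ i, |v i| := by
      rw [pi_norm_le_iff_of_nonneg (Finset.sum_nonneg (fun i _ => abs_nonneg _))]
      intro i
      exact Finset.single_le_sum (f := fun i => |v i|) (fun i _ => abs_nonneg _)
        (Finset.mem_univ i)
    have h2 : K * ‖v‖ ≤ |K| * ∑ i, |v i| :=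
      (mul_le_mul_of_nonneg_right (le_abs_self K) (norm_nonneg v)).trans
        (mul_le_mul_of_nonneg_left h1 (abs_nonneg K))
    have h3 : ∑ i : Fin n, (|K| * |v i| - B) ≤ Lag n l x v t := by
      unfold Lag
      exact Finset.sum_le_sum (fun i _ => hB _ _ _)
    rw [Finset.sum_sub_distrib, ← Finset.mul_sum] at h3
    simp only [Finset.sum_const, Finset.card_univ, Fintype.card_fin, nsmul_eq_mul] at h3
    linarith
  · intro t0 x0 v0
    have hf : C2 (fun (_ : Fin n → ℝ) (_ : ℝ) => (0 : ℝ)) := contDiff_const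
    obtain ⟨γ, h1, h2, h3⟩ := exist_el l P hlv hlx hHP hPH h8 _ hf (fun _ _ _ _ => rfl) t0 x0 v0
    simp only [add_zero] at h1
    exact ⟨γ, h1, h2, h3⟩

theorem escape (hP : ContDiff ℝ (⊤ : ℕ∞) (fun q : ℝ × ℝ × ℝ => P q.1 q.2.1 q.2.2))
    (hlv : ∀ x v t : ℝ, HasDerivAt (fun s => l x s t) (P x v t) v)
    (hlx : ∀ x v t : ℝ, HasDerivAt (fun s => l s v t) (fo x (P x v t) t) x)
    (hHP : ∀ x v t : ℝ, hp x (P x v t) t = v) (hPH : ∀ x p t : ℝ, P x (hp x p t) t = p)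
    (h6 : P_CORE) (h7 : P_GB)
    (f : (Fin n → ℝ) → ℝ → ℝ) (hf : C2 f) (hfp : PerF f) :
    ∃ (t0 : ℝ) (U : Set ((Fin n → ℝ) × (Fin n → ℝ))), IsOpen U ∧ U.Nonempty ∧
      ∀ γ : ℝ → (Fin n → ℝ), IsEL (fun x v t => Lag n l x v t + f x t) γ →
        (γ t0, deriv γ t0) ∈ U → ∀ i : Fin n, Tendsto (fun t => deriv γ t i) atTop atTop := by
  obtain ⟨G, hG, hGf⟩ := h7 n f hf hfp
  obtain ⟨k0, hk0⟩ := h6 G hG
  refine ⟨(k0 : ℝ) + 1 / 2, {q | ∀ i, |q.1 i - k0 * (k0 + 1 / 2)| < 1 / 1000 ∧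
    |P (q.1 i) (q.2 i) ((k0 : ℝ) + 1 / 2) - 3 ^ k0| < 3 ^ k0 / 1000}, ?_, ?_, ?_⟩
  · have hset : {q : (Fin n → ℝ) × (Fin n → ℝ) | ∀ i, |q.1 i - k0 * (k0 + 1 / 2)| < 1 / 1000 ∧
        |P (q.1 i) (q.2 i) ((k0 : ℝ) + 1 / 2) - 3 ^ k0| < 3 ^ k0 / 1000} =
        ⋂ i, {q : (Fin n → ℝ) × (Fin n → ℝ) | |q.1 i - k0 * (k0 + 1 / 2)| < 1 / 1000 ∧
        |P (q.1 i) (q.2 i) ((k0 : ℝ) + 1 / 2) - 3 ^ k0| < 3 ^ k0 / 1000} := by
      ext q; simp
    rw [hset]
    apply isOpen_iInter_of_finite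
    intro i
    have hc : Continuous (fun q : (Fin n → ℝ) × (Fin n → ℝ) =>
        P (q.1 i) (q.2 i) ((k0 : ℝ) + 1 / 2)) := by
      have h1 : Continuous (fun q : (Fin n → ℝ) × (Fin n → ℝ) =>
        ((q.1 i, q.2 i, (k0 : ℝ) + 1 / 2) : ℝ × ℝ × ℝ)) := by fun_prop
      exact hP.continuous.comp h1
    have hA : IsOpen {q : (Fin n → ℝ) × (Fin n → ℝ) |
        |q.1 i - (k0 : ℝ) * (k0 + 1 / 2)| < 1 / 1000} :=
      isOpen_lt (by fun_prop) continuous_const
    have hB : IsOpen {q : (Fin n → ℝ) × (Fin n → ℝ) |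
        |P (q.1 i) (q.2 i) ((k0 : ℝ) + 1 / 2) - 3 ^ k0| < 3 ^ k0 / 1000} :=
      isOpen_lt (hc.sub continuous_const).abs continuous_const
    exact hA.inter hB
  · refine ⟨(fun _ => k0 * (k0 + 1 / 2), fun _ => hp (k0 * (k0 + 1 / 2)) (3 ^ k0)
      ((k0 : ℝ) + 1 / 2)), ?_⟩
    intro i
    simp only [hPH, sub_self, abs_zero]
    constructor
    · norm_num
    · positivity
  · intro γ hγ hU i
    rw [el_iff l P hlv hlx f hf] at hγ
    obtain ⟨hd, hel⟩ := hγ
    have hdi : ∀ t, HasDerivAt (fun s => γ s i)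
        (hp (γ t i) (P (γ t i) (deriv γ t i) t) t) t := by
      intro t
      rw [hHP]
      exact (hasDerivAt_pi.mp (hd t).hasDerivAt) i
    have hcore := hk0 (fun t => γ t i) (fun t => P (γ t i) (deriv γ t i) t)
      (fun t => Df f i (γ t) t) (fun t => ⟨hdi t, hel t i, hGf i (γ t) t⟩) 0
      (by
        have := (hU i).1.le
        simpa using this)
      (by
        have := (hU i).2.le
        exact this)
    have hlow : ∀ᶠ t in atTop, t - 5 / 2 ≤ deriv γ t i := by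
      filter_upwards [eventually_ge_atTop ((k0 : ℝ) + 1)] with t ht
      have h0 : (0 : ℝ) ≤ k0 := Nat.cast_nonneg _
      have h1 : (⌊t - 1 / 2⌋₊ : ℝ) ≤ t - 1 / 2 := Nat.floor_le (by linarith)
      have h2 : t - 1 / 2 < (⌊t - 1 / 2⌋₊ : ℝ) + 1 := Nat.lt_floor_add_one _
      have h3 : k0 ≤ ⌊t - 1 / 2⌋₊ := Nat.le_floor (by linarith)
      have h4 := hcore ⌊t - 1 / 2⌋₊ h3 t ⟨by linarith, by linarith⟩
      simp only [hHP] at h4
      linarith
    exact tendsto_atTop_mono' atTop hlow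
      (tendsto_atTop_add_const_right atTop (-(5 / 2 : ℝ)) tendsto_id |>.congr (fun t => by
        simp [sub_eq_add_neg]))

end lag

theorem main_thm (h1 : P_SMOOTH) (h2 : P_DER) (h3 : P_CVX) (h4 : P_SUP) (h5 : P_LEG)
    (h6 : P_CORE) (h7 : P_GB) (h8 : P_COMPL) : P_MAIN := by
  obtain ⟨l, P, hl, hP, hHP, hPH, hlv, hlx, hPv, hls, hlp⟩ :=
    h5 h (h_smooth h1 h2) (hpp_pos h2 h3) h4.1 h4.2 h_per
  have hHP' : ∀ x v t : ℝ, hp x (P x v t) t = v := by
    intro x v t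
    rw [← (hp_deriv h2 x (P x v t) t).deriv]
    exact hHP x v t
  have hPH' : ∀ x p t : ℝ, P x (hp x p t) t = p := by
    intro x p t
    rw [← (hp_deriv h2 x p t).deriv]
    exact hPH x p t
  have hlx' : ∀ x v t : ℝ, HasDerivAt (fun s => l s v t) (fo x (P x v t) t) x := by
    intro x v t
    have := hlx x v t
    rw [(hx_deriv h2 x (P x v t) t).deriv, neg_neg] at this
    exact this
  intro n
  refine ⟨Lag n l, tonelli_lag l P hl hP hlv hlx' hHP' hPH' hPv hls hlp h8, ?_⟩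
  intro f hf hfp
  exact ⟨exist_el l P hlv hlx' hHP' hPH' h8 f hf hfp,
    escape l P hP hlv hlx' hHP' hPH' h6 h7 f hf hfp⟩

end Pool.Agent.W682.TLM
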